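import Mathlib

set_option autoImplicit false

namespace Pool.Agent.H978Z.FinDep

open scoped ENNReal

/-- the least `r` such that `(φ y') 0 = (φ y) 0` for every `y'` agreeing with `y` on `[-r, r]`
(`∞` if there is none) -/
noncomputable def codingRadius {T S : Type} (φ : (ℤ → T) → ℤ → S) (y : ℤ → T) : ℝ≥0∞ :=
  ⨅ (r : ℕ) (_ : ∀ y' : ℤ → T, (∀ i : ℤ, |i| ≤ r → y' i = y i) → φ y' 0 = φ y 0), (r : ℝ≥0∞)

end Pool.Agent.H978Z.FinDep
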