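import Pool.Agent.H978Z.FinDep.Proc
import Pool.Agent.H978Z.FinDep.Defs

set_option autoImplicit false

namespace Pool.Agent.H978Z.FinDep

open MeasureTheory ProbabilityTheory Set
open scoped ENNReal

variable {T : Type} [MeasurableSpace T]

/-- configurations whose window `[-k, k]` determines the output at `0` almost surely -/
def G (P : Measure (ℤ → T)) (φ : (ℤ → T) → ℤ → St) (k : ℕ) : Set (ℤ → T) :=
  {y | P {y' | φ (glue {i | |i| ≤ k} y y') 0 ≠ φ y 0} = 0}

theorem measurable_glue (K : Set ℤ) :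
    Measurable (fun p : (ℤ → T) × (ℤ → T) => glue K p.1 p.2) := by
  refine measurable_pi_lambda _ fun i => ?_
  unfold glue
  split_ifs
  · fun_prop
  · fun_prop

theorem measurableSet_G (P : Measure (ℤ → T)) [SFinite P] {φ : (ℤ → T) → ℤ → St}
    (hφ : Measurable φ) (k : ℕ) : MeasurableSet (G P φ k) := by
  have h : MeasurableSet {p : (ℤ → T) × (ℤ → T) |
      φ (glue {i | |i| ≤ k} p.1 p.2) 0 = φ p.1 0}ᶜ :=
    (measurableSet_eq_fun ((measurable_pi_apply 0).comp (hφ.comp (measurable_glue _)))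
      ((measurable_pi_apply 0).comp (hφ.comp measurable_fst))).compl
  exact measurable_measure_prodMk_left (ν := P) h (measurableSet_singleton 0)

theorem G_eq (P : Measure (ℤ → T)) [IsProbabilityMeasure P] {φ : (ℤ → T) → ℤ → St} {k : ℕ}
    {y z : ℤ → T} (hy : y ∈ G P φ k) (hz : z ∈ G P φ k) (h : ∀ i : ℤ, |i| ≤ k → y i = z i) :
    φ y 0 = φ z 0 := by
  by_contra hne
  have hg : ∀ y', glue {i | |i| ≤ k} y y' = glue {i | |i| ≤ k} z y' := by
    intro y'
    funext i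
    unfold glue
    split_ifs with hi
    · exact h i hi
    · rfl
  have hcov : (univ : Set (ℤ → T)) ⊆ {y' | φ (glue {i | |i| ≤ k} y y') 0 ≠ φ y 0} ∪
      {y' | φ (glue {i | |i| ≤ k} z y') 0 ≠ φ z 0} := by
    intro y' _
    by_contra hc
    simp only [mem_union, mem_ofPred_eq, not_or, not_not] at hc
    rw [hg] at hc
    exact hne (hc.1.symm.trans hc.2)
  have := (measure_mono (μ := P) hcov).trans (measure_union_le _ _)
  rw [hy, hz, measure_univ] at this
  simp at this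

theorem lt_radius (P : Measure (ℤ → T)) {φ : (ℤ → T) → ℤ → St} {k : ℕ} {y : ℤ → T}
    (hy : y ∉ G P φ k) {r : ℕ}
    (hr : ∀ y' : ℤ → T, (∀ i : ℤ, |i| ≤ r → y' i = y i) → φ y' 0 = φ y 0) : k < r := by
  by_contra hk
  apply hy
  have : {y' | φ (glue {i | |i| ≤ k} y y') 0 ≠ φ y 0} = ∅ := by
    refine eq_empty_of_forall_notMem fun y' h => h (hr _ fun i hi => ?_)
    have : |i| ≤ k := hi.trans (by exact_mod_cast not_lt.1 hk)
    simp [glue, this]
  show P _ = 0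
  rw [this, measure_empty]

/-- good configurations for the window `0..4k+1` -/
def Good (P : Measure (ℤ → T)) (φ : (ℤ → T) → ℤ → St) (k : ℕ) : Set (ℤ → T) :=
  {y | (∀ p ∈ Finset.range (4 * k + 2), (fun j => y (j + (p : ℕ))) ∈ G P φ k ∧
    φ (fun j => y (j + (p : ℕ))) 0 = φ y p) ∧ φ y ∈ Rel (4 * k + 1)}

theorem Good_eq (P : Measure (ℤ → T)) [IsProbabilityMeasure P] {φ : (ℤ → T) → ℤ → St} {k : ℕ}
    {y z : ℤ → T} (hy : y ∈ Good P φ k) (hz : z ∈ Good P φ k) (p : ℕ) (hp : p < 4 * k + 2)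
    (h : ∀ i : ℤ, (p : ℤ) - k ≤ i → i ≤ p + k → y i = z i) : φ y p = φ z p := by
  have h1 := hy.1 p (Finset.mem_range.2 hp)
  have h2 := hz.1 p (Finset.mem_range.2 hp)
  rw [← h1.2, ← h2.2]
  refine G_eq P h1.1 h2.1 fun i hi => h _ ?_ ?_
  · have := (abs_le.1 hi).1
    omega
  · have := (abs_le.1 hi).2
    omega

theorem not_all_good (P : Measure (ℤ → T)) [IsProbabilityMeasure P] {φ : (ℤ → T) → ℤ → St}
    {k : ℕ} {y y' : ℤ → T} (hy : φ y ∈ UV (4 * k + 1) 0 0) (hy' : φ y' ∈ UV (4 * k + 1) 1 1)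
    (g0 : y ∈ Good P φ k) (g1 : glue (Iic (3 * k : ℤ)) y y' ∈ Good P φ k)
    (g2 : glue (Ioi (k : ℤ)) y y' ∈ Good P φ k) (g3 : glue (Ioc (k : ℤ) (3 * k)) y y' ∈ Good P φ k)
    (g4 : y' ∈ Good P φ k) : False := by
  set z1 := glue (Iic (3 * k : ℤ)) y y' with hz1
  set z2 := glue (Ioi (k : ℤ)) y y' with hz2
  set z3 := glue (Ioc (k : ℤ) (3 * k)) y y' with hz3
  have l01 : ∀ p : ℕ, p < 2 * k + 1 → φ y p = φ z1 p := fun p hp =>
    Good_eq P g0 g1 p (by omega) fun i h1 h2 => by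
      have : i ≤ 3 * k := by omega
      simp [hz1, glue, this]
  have l23 : ∀ p : ℕ, p < 2 * k + 1 → φ z2 p = φ z3 p := fun p hp =>
    Good_eq P g2 g3 p (by omega) fun i h1 h2 => by
      have : i ≤ 3 * k := by omega
      simp [hz2, hz3, glue, this]
  have r02 : ∀ p : ℕ, 2 * k + 1 ≤ p → p < 4 * k + 2 → φ y p = φ z2 p := fun p hp hp' =>
    Good_eq P g0 g2 p hp' fun i h1 h2 => by
      have : (k : ℤ) < i := by omega
      simp [hz2, glue, this]
  have r13 : ∀ p : ℕ, 2 * k + 1 ≤ p → p < 4 * k + 2 → φ z1 p = φ z3 p := fun p hp hp' =>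
    Good_eq P g1 g3 p hp' fun i h1 h2 => by
      have : (k : ℤ) < i := by omega
      simp [hz1, hz3, glue, this]
  have u3 : φ z3 (0 : ℕ) = φ y' (0 : ℕ) :=
    Good_eq P g3 g4 0 (by omega) fun i h1 h2 => by
      have : ¬ (k : ℤ) < i := by omega
      simp [hz3, glue, this]
  have v3 : φ z3 (4 * k + 1 : ℕ) = φ y' (4 * k + 1 : ℕ) :=
    Good_eq P g3 g4 (4 * k + 1) (by omega) fun i h1 h2 => by
      have : ¬ i ≤ 3 * k := by omega
      simp [hz3, glue, this]
  have split : ∀ z : ℤ → T, φ z ∈ Rel (4 * k + 1) →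
      ∑ p ∈ Finset.range (2 * k + 1), (φ z p (4 * k + 1) p).1 +
      ∑ p ∈ Finset.Ico (2 * k + 1) (4 * k + 2), (φ z p (4 * k + 1) p).1 =
      (φ z (0 : ℕ) (4 * k + 1) 0).2.1 * (φ z (4 * k + 1 : ℕ) (4 * k + 1) (4 * k + 1)).2.2 := by
    intro z hz
    rw [Finset.sum_range_add_sum_Ico _ (by omega)]
    exact hz
  have e0 := split y g0.2
  have e1 := split z1 g1.2
  have e2 := split z2 g2.2
  have e3 := split z3 g3.2
  have sl : ∀ a b : ℤ → T, (∀ p : ℕ, p < 2 * k + 1 → φ a p = φ b p) →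
      ∑ p ∈ Finset.range (2 * k + 1), (φ a p (4 * k + 1) p).1 =
      ∑ p ∈ Finset.range (2 * k + 1), (φ b p (4 * k + 1) p).1 := fun a b h =>
    Finset.sum_congr rfl fun p hp => by rw [h p (Finset.mem_range.1 hp)]
  have sr : ∀ a b : ℤ → T, (∀ p : ℕ, 2 * k + 1 ≤ p → p < 4 * k + 2 → φ a p = φ b p) →
      ∑ p ∈ Finset.Ico (2 * k + 1) (4 * k + 2), (φ a p (4 * k + 1) p).1 =
      ∑ p ∈ Finset.Ico (2 * k + 1) (4 * k + 2), (φ b p (4 * k + 1) p).1 := fun a b h =>
    Finset.sum_congr rfl fun p hp => by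
      rw [h p (Finset.mem_Ico.1 hp).1 (Finset.mem_Ico.1 hp).2]
  have hu : (φ y (0 : ℕ) (4 * k + 1) 0).2.1 = 0 := hy.1
  have hv : (φ y (4 * k + 1 : ℕ) (4 * k + 1) (4 * k + 1)).2.2 = 0 := hy.2
  have hu' : (φ y' (0 : ℕ) (4 * k + 1) 0).2.1 = 1 := hy'.1
  have hv' : (φ y' (4 * k + 1 : ℕ) (4 * k + 1) (4 * k + 1)).2.2 = 1 := hy'.2
  rw [hu, zero_mul] at e0
  rw [← l01 0 (by omega), hu, zero_mul, ← sl _ _ l01] at e1
  rw [← r02 (4 * k + 1) (by omega) (by omega), hv, mul_zero, ← sr _ _ r02] at e2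
  rw [u3, v3, hu', hv', ← sl _ _ l23, ← sr _ _ r13] at e3
  have : ∀ a a' b b' : ZMod 2, a + b = 0 → a + b' = 0 → a' + b = 0 → a' + b' = 1 * 1 → False := by
    decide
  exact this _ _ _ _ e0 e1 e2 e3

theorem tail (μ : Measure T) [IsProbabilityMeasure μ] {φ : (ℤ → T) → ℤ → St}
    (hφ : Measurable φ)
    (heq : ∀ c : ℤ, ∀ᵐ y ∂(Measure.infinitePi fun _ : ℤ => μ),
      φ (fun j => y (j + c)) = fun j => φ y (j + c))
    (hlaw : (Measure.infinitePi fun _ : ℤ => μ).map φ = nu) (k : ℕ) :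
    1 ≤ 320 * (k + 1) * (Measure.infinitePi fun _ : ℤ => μ)
      (G (Measure.infinitePi fun _ : ℤ => μ) φ k)ᶜ := by
  set P := Measure.infinitePi fun _ : ℤ => μ with hP
  set ε := P (G P φ k)ᶜ with hε
  have hpres : MeasurePreserving φ P nu := ⟨hφ, hlaw⟩
  have hbad : P (Good P φ k)ᶜ ≤ (4 * k + 2 : ℕ) * ε := by
    have hcov : (Good P φ k)ᶜ ⊆ (⋃ p ∈ Finset.range (4 * k + 2),
        ((fun (y : ℤ → T) j => y (j + (p : ℕ))) ⁻¹' (G P φ k)ᶜ ∪
          {y | ¬ φ (fun j => y (j + (p : ℕ))) = fun j => φ y (j + (p : ℕ))})) ∪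
        φ ⁻¹' (Rel (4 * k + 1))ᶜ := by
      intro y hy
      by_contra hc
      simp only [mem_union, mem_iUnion, not_or, not_exists, mem_preimage, mem_compl_iff,
        not_not, mem_ofPred_eq] at hc
      refine hy ⟨fun p hp => ⟨(hc.1 p hp).1, ?_⟩, hc.2⟩
      rw [(hc.1 p hp).2]
      simp
    refine (measure_mono hcov).trans ((measure_union_le _ _).trans ?_)
    rw [hpres.measure_preimage (measurableSet_Rel _).compl.nullMeasurableSet, nu_Rel, add_zero]
    refine (measure_biUnion_finset_le _ _).trans ?_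
    have : ∀ p ∈ Finset.range (4 * k + 2),
        P ((fun (y : ℤ → T) j => y (j + (p : ℕ))) ⁻¹' (G P φ k)ᶜ ∪
          {y | ¬ φ (fun j => y (j + (p : ℕ))) = fun j => φ y (j + (p : ℕ))}) ≤ ε := by
      intro p _
      refine (measure_union_le _ _).trans ?_
      rw [(shift_pres μ p).measure_preimage
        (measurableSet_G P hφ k).compl.nullMeasurableSet, ae_iff.1 (heq p), add_zero]
    refine (Finset.sum_le_sum this).trans (le_of_eq ?_)
    rw [Finset.sum_const, Finset.card_range, nsmul_eq_mul]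
  have hpre : ∀ f : (ℤ → T) × (ℤ → T) → ℤ → T, MeasurePreserving f (P.prod P) P →
      (P.prod P) (f ⁻¹' (Good P φ k)ᶜ) ≤ (4 * k + 2 : ℕ) * ε := fun f hf =>
    ((Measure.le_map_apply hf.measurable.aemeasurable _).trans (by rw [hf.map_eq])).trans hbad
  have hcov : (φ ⁻¹' UV (4 * k + 1) 0 0) ×ˢ (φ ⁻¹' UV (4 * k + 1) 1 1) ⊆
      (((Prod.fst ⁻¹' (Good P φ k)ᶜ ∪
        (fun p : (ℤ → T) × (ℤ → T) => glue (Iic (3 * k : ℤ)) p.1 p.2) ⁻¹' (Good P φ k)ᶜ) ∪
        (fun p : (ℤ → T) × (ℤ → T) => glue (Ioi (k : ℤ)) p.1 p.2) ⁻¹' (Good P φ k)ᶜ) ∪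
        (fun p : (ℤ → T) × (ℤ → T) => glue (Ioc (k : ℤ) (3 * k)) p.1 p.2) ⁻¹' (Good P φ k)ᶜ) ∪
        Prod.snd ⁻¹' (Good P φ k)ᶜ := by
    intro p hp
    by_contra hc
    simp only [mem_union, not_or, mem_preimage, mem_compl_iff, not_not] at hc
    exact not_all_good P hp.1 hp.2 hc.1.1.1.1 hc.1.1.1.2 hc.1.1.2 hc.1.2 hc.2
  have h1 := (measure_mono (μ := P.prod P) hcov).trans ((measure_union_le _ _).trans
    (add_le_add ((measure_union_le _ _).trans (add_le_add ((measure_union_le _ _).trans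
      (add_le_add ((measure_union_le _ _).trans (add_le_add (hpre _ measurePreserving_fst)
        (hpre _ (glue_pres μ _)))) (hpre _ (glue_pres μ _)))) (hpre _ (glue_pres μ _))))
      (hpre _ measurePreserving_snd)))
  rw [Measure.prod_prod, hpres.measure_preimage (measurableSet_UV _ _ _).nullMeasurableSet,
    hpres.measure_preimage (measurableSet_UV _ _ _).nullMeasurableSet] at h1
  have h2 := (mul_le_mul' (nu_UV (4 * k + 1) 0 0) (nu_UV (4 * k + 1) 1 1)).trans h1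
  have h3 : ((4 * k + 2 : ℕ) : ℝ≥0∞) ≤ 4 * (k + 1) := by
    have : 4 * k + 2 ≤ 4 * (k + 1) := by omega
    exact_mod_cast this
  have h4 : (1 : ℝ≥0∞) = 16 * (4⁻¹ * 4⁻¹) := by
    rw [show (16 : ℝ≥0∞) = 4 * 4 by norm_num, mul_mul_mul_comm,
      ENNReal.mul_inv_cancel (by simp) (by simp), one_mul]
  refine h4.le.trans ((mul_le_mul_right h2 16).trans ?_)
  calc _ = 80 * (((4 * k + 2 : ℕ) : ℝ≥0∞) * ε) := by ring
    _ ≤ 80 * (4 * (k + 1) * ε) := by gcongr
    _ = _ := by ring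

theorem sum_le_radius (P : Measure (ℤ → T)) (φ : (ℤ → T) → ℤ → St) (y : ℤ → T) :
    ∑' k : ℕ, (G P φ k)ᶜ.indicator (fun _ => (1 : ℝ≥0∞)) y ≤ codingRadius φ y := by
  refine le_iInf₂ fun r hr => ?_
  rw [tsum_eq_sum (s := Finset.range r) (fun k hk => indicator_of_notMem
    (fun h => hk (Finset.mem_range.2 (lt_radius P h hr))) _)]
  refine (Finset.sum_le_sum (g := fun _ => (1 : ℝ≥0∞)) fun k _ =>
    indicator_le_self' (fun _ _ => zero_le) y).trans ?_
  simp

theorem lintegral_radius (μ : Measure T) [IsProbabilityMeasure μ] {φ : (ℤ → T) → ℤ → St}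
    (hφ : Measurable φ)
    (heq : ∀ c : ℤ, ∀ᵐ y ∂(Measure.infinitePi fun _ : ℤ => μ),
      φ (fun j => y (j + c)) = fun j => φ y (j + c))
    (hlaw : (Measure.infinitePi fun _ : ℤ => μ).map φ = nu) :
    ∫⁻ y, codingRadius φ y ∂(Measure.infinitePi fun _ : ℤ => μ) = ∞ := by
  set P := Measure.infinitePi fun _ : ℤ => μ with hP
  refine top_unique (le_trans ?_ (lintegral_mono (sum_le_radius P φ)))
  rw [lintegral_tsum fun k =>
    (measurable_const.indicator (measurableSet_G P hφ k).compl).aemeasurable]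
  simp_rw [fun k => lintegral_indicator_const (μ := P) (measurableSet_G P hφ k).compl 1, one_mul]
  rw [top_le_iff]
  by_contra hne
  have hs : Summable fun k => (P (G P φ k)ᶜ).toReal := ENNReal.summable_toReal hne
  have hs2 : Summable fun k : ℕ => 1 / ((k + 1 : ℕ) : ℝ) := by
    refine Summable.of_nonneg_of_le (fun k => by positivity) (fun k => ?_) (hs.mul_left 320)
    have h := ENNReal.toReal_mono (by finiteness) (tail μ hφ heq hlaw k)
    rw [ENNReal.toReal_mul, ENNReal.toReal_mul, ENNReal.toReal_add (by simp) (by simp)] at h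
    simp only [ENNReal.toReal_one, ENNReal.toReal_ofNat, ENNReal.toReal_natCast] at h
    rw [div_le_iff₀ (by positivity)]
    push_cast
    linarith
  exact Real.not_summable_one_div_natCast ((summable_nat_add_iff 1).1 hs2)

end Pool.Agent.H978Z.FinDep
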