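import Mathlib

set_option autoImplicit false

namespace Pool.Agent.H978Z.FinDep

open MeasureTheory ProbabilityTheory Set

theorem zip_map {ι : Type*} {E : ι → Type*} [∀ i, MeasurableSpace (E i)]
    (μ : ∀ i, Measure (E i)) [∀ i, IsProbabilityMeasure (μ i)] :
    ((Measure.infinitePi μ).prod (Measure.infinitePi μ)).map
      (fun p : (∀ i, E i) × (∀ i, E i) => fun i => (p.1 i, p.2 i)) =
      Measure.infinitePi (fun i => (μ i).prod (μ i)) := by
  refine Measure.eq_infinitePi _ fun s t ht => ?_
  have hm : Measurable (fun p : (∀ i, E i) × (∀ i, E i) => fun i => (p.1 i, p.2 i)) := by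
    fun_prop
  have hs : MeasurableSet ((s : Set ι).pi t) := .pi s.countable_toSet fun i _ => ht i
  rw [Measure.map_apply hm hs, Measure.prod_apply (hm hs)]
  have h1 : ∀ ω : ∀ i, E i, Measure.infinitePi μ
      (Prod.mk ω ⁻¹' ((fun p : (∀ i, E i) × (∀ i, E i) => fun i => (p.1 i, p.2 i)) ⁻¹'
        ((s : Set ι).pi t))) = ∏ i ∈ s, μ i (Prod.mk (ω i) ⁻¹' t i) := by
    intro ω
    rw [← Measure.infinitePi_pi μ (fun i _ => measurable_prodMk_left (ht i))]
    congr 1
  simp_rw [h1]
  rw [lintegral_prod_eq_prod_lintegral_of_indepFun s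
    (fun i (ω : ∀ i, E i) => μ i (Prod.mk (ω i) ⁻¹' t i))
    (iIndepFun_infinitePi (X := fun i x => μ i (Prod.mk x ⁻¹' t i))
      fun i => measurable_measure_prodMk_left (ht i))
    (fun i => (measurable_measure_prodMk_left (ht i)).comp (measurable_pi_apply i))]
  refine Finset.prod_congr rfl fun i _ => ?_
  rw [Measure.prod_apply (ht i)]
  exact (measurePreserving_eval_infinitePi μ i).lintegral_comp
    (measurable_measure_prodMk_left (ht i))

theorem mix_pres {ι : Type*} {E : ι → Type*} [∀ i, MeasurableSpace (E i)]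
    (μ : ∀ i, Measure (E i)) [∀ i, IsProbabilityMeasure (μ i)] (m : ∀ i, E i × E i → E i)
    (hm : ∀ i, MeasurePreserving (m i) ((μ i).prod (μ i)) (μ i)) :
    MeasurePreserving (fun p : (∀ i, E i) × (∀ i, E i) => fun i => m i (p.1 i, p.2 i))
      ((Measure.infinitePi μ).prod (Measure.infinitePi μ)) (Measure.infinitePi μ) := by
  have h1 : Measurable (fun p : (∀ i, E i) × (∀ i, E i) => fun i => (p.1 i, p.2 i)) := by
    fun_prop
  have h2 : Measurable (fun (x : ∀ i, E i × E i) i => m i (x i)) :=
    measurable_pi_lambda _ fun i => (hm i).measurable.comp (measurable_pi_apply i)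
  refine ⟨h2.comp h1, ?_⟩
  have : (fun p : (∀ i, E i) × (∀ i, E i) => fun i => m i (p.1 i, p.2 i)) =
      (fun (x : ∀ i, E i × E i) i => m i (x i)) ∘
        (fun p : (∀ i, E i) × (∀ i, E i) => fun i => (p.1 i, p.2 i)) := rfl
  rw [this, ← Measure.map_map h2 h1, zip_map,
    Measure.infinitePi_map_pi _ (fun i => (hm i).measurable)]
  congr 1
  funext i
  exact (hm i).map_eq

open Classical in
/-- take the coordinates in `K` from `y` and the others from `y'` -/
noncomputable def glue {T : Type*} (K : Set ℤ) (y y' : ℤ → T) : ℤ → T :=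
  fun i => if i ∈ K then y i else y' i

theorem glue_pres {T : Type*} [MeasurableSpace T] (μ : Measure T) [IsProbabilityMeasure μ]
    (K : Set ℤ) :
    MeasurePreserving (fun p : (ℤ → T) × (ℤ → T) => glue K p.1 p.2)
      ((Measure.infinitePi fun _ : ℤ => μ).prod (Measure.infinitePi fun _ : ℤ => μ))
      (Measure.infinitePi fun _ : ℤ => μ) := by
  classical
  have := mix_pres (fun _ : ℤ => μ) (fun i p => if i ∈ K then p.1 else p.2) (fun i => by
    by_cases h : i ∈ K
    · simp only [h, if_true]
      exact measurePreserving_fst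
    · simp only [h, if_false]
      exact measurePreserving_snd)
  convert this using 3 with p i
  simp only [glue]

theorem shift_pres {T : Type*} [MeasurableSpace T] (μ : Measure T) [IsProbabilityMeasure μ]
    (c : ℤ) :
    MeasurePreserving (fun (y : ℤ → T) (j : ℤ) => y (j + c))
      (Measure.infinitePi fun _ : ℤ => μ) (Measure.infinitePi fun _ : ℤ => μ) :=
  ⟨by fun_prop, Measure.map_infinitePi_infinitePi_of_inj (P := fun _ : ℤ => μ)
    (f := fun j => j + c) (add_left_injective c)⟩

/-- independence from a measure preserving mixing map -/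
theorem indep_of_mix {Ω α β : Type*} [MeasurableSpace Ω] [MeasurableSpace α] [MeasurableSpace β]
    (P : Measure Ω) [IsProbabilityMeasure P] (M : Ω × Ω → Ω)
    (hM : MeasurePreserving M (P.prod P) P) {f : Ω → α} {g : Ω → β} (hf : Measurable f)
    (hg : Measurable g) (h1 : ∀ p, f (M p) = f p.1) (h2 : ∀ p, g (M p) = g p.2) :
    IndepFun f g P := by
  rw [indepFun_iff_measure_inter_preimage_eq_mul]
  intro s t hs ht
  rw [← hM.measure_preimage ((hf hs).inter (hg ht)).nullMeasurableSet, ← Measure.prod_prod]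
  congr 1
  ext p
  simp [h1, h2]

theorem unif_equiv {Ω : Type*} [Countable Ω] [MeasurableSpace Ω] [DiscreteMeasurableSpace Ω]
    (μ : Measure Ω) (h : ∀ x y, μ {x} = μ {y}) (e : Ω ≃ Ω) : MeasurePreserving e μ μ := by
  refine ⟨Measurable.of_discrete, Measure.ext_of_singleton fun a => ?_⟩
  rw [Measure.map_apply Measurable.of_discrete (measurableSet_singleton a)]
  have : e ⁻¹' {a} = {e.symm a} := by
    ext x
    simp [Equiv.eq_symm_apply]
  rw [this]
  exact h _ _

end Pool.Agent.H978Z.FinDep
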