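import Pool.Agent.H978Z.FinDep.Window

set_option autoImplicit false

namespace Pool.Agent.H978Z.FinDep

open MeasureTheory ProbabilityTheory Set
open scoped ENNReal

/-- the state space (a Cantor space) -/
abbrev St : Type := ℕ → ℕ → ZMod 2 × ZMod 2 × ZMod 2

/-- all windows starting at one site -/
noncomputable def rho : Measure (∀ n, W n) := Measure.infinitePi unif

instance instProbRho : IsProbabilityMeasure rho := by
  unfold rho
  infer_instance

/-- all windows -/
noncomputable def P0 : Measure (ℤ → ∀ n, W n) := Measure.infinitePi fun _ : ℤ => rho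

instance instProbP0 : IsProbabilityMeasure P0 := by
  unfold P0
  infer_instance

/-- the process -/
def proc (ω : ℤ → ∀ n, W n) : ℤ → St :=
  fun i n p => if h : p < n + 1 then obs (ω (i - p) n) ⟨p, h⟩ else 0

theorem measurable_proc : Measurable proc := by
  refine measurable_pi_lambda _ fun i => measurable_pi_lambda _ fun n =>
    measurable_pi_lambda _ fun p => ?_
  unfold proc
  split_ifs with h
  · exact (Measurable.of_discrete (f := fun x : W n => obs x ⟨p, h⟩)).comp
      ((measurable_pi_apply n).comp (measurable_pi_apply (i - p)))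
  · exact measurable_const

/-- the law of the process -/
noncomputable def nu : Measure (ℤ → St) := P0.map proc

instance instProbNu : IsProbabilityMeasure nu :=
  Measure.isProbabilityMeasure_map measurable_proc.aemeasurable

theorem nu_shift : nu.map (fun (x : ℤ → St) (j : ℤ) => x (j + 1)) = nu := by
  have h1 : Measurable (fun (x : ℤ → St) (j : ℤ) => x (j + 1)) := by fun_prop
  have h2 := shift_pres rho 1
  unfold nu
  rw [Measure.map_map h1 measurable_proc]
  have : (fun (x : ℤ → St) (j : ℤ) => x (j + 1)) ∘ proc =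
      proc ∘ (fun (y : ℤ → ∀ n, W n) (j : ℤ) => y (j + 1)) := by
    funext ω j n p
    simp only [Function.comp, proc]
    rw [show j + 1 - (p : ℤ) = j - p + 1 by ring]
  rw [this, ← Measure.map_map measurable_proc h2.measurable]
  congr 1
  exact h2.map_eq

theorem window_cases (A B : Set ℤ) (h : ∀ i ∈ A, ∀ j ∈ B, 1 < |i - j|) (j : ℤ) (n : ℕ) :
    (∃ q : Fin (n + 1), q ∉ {p : Fin (n + 1) | j + (p : ℕ) ∈ A} ∧
      q ∉ {p : Fin (n + 1) | j + (p : ℕ) ∈ B}) ∨
      {p : Fin (n + 1) | j + (p : ℕ) ∈ A} = ∅ ∨ {p : Fin (n + 1) | j + (p : ℕ) ∈ B} = ∅ := by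
  by_cases hq : ∃ q : Fin (n + 1), q ∉ {p : Fin (n + 1) | j + (p : ℕ) ∈ A} ∧
      q ∉ {p : Fin (n + 1) | j + (p : ℕ) ∈ B}
  · exact Or.inl hq
  right
  have hall : ∀ p : ℕ, p < n + 1 → j + p ∈ A ∨ j + p ∈ B := by
    intro p hp
    by_contra hc
    rw [not_or] at hc
    exact hq ⟨⟨p, hp⟩, hc.1, hc.2⟩
  have hd : ∀ i, i ∈ A → i ∈ B → False := fun i h1 h2 => by
    have := h i h1 i h2
    simp at this
  rcases hall 0 (by omega) with h0 | h0
  · right
    have : ∀ p : ℕ, p < n + 1 → j + p ∈ A := by
      intro p
      induction p with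
      | zero => exact fun _ => h0
      | succ p ih =>
        intro hp
        rcases hall (p + 1) hp with h1 | h1
        · exact h1
        · have := h _ (ih (by omega)) _ h1
          rw [show j + (p : ℤ) - (j + ((p + 1 : ℕ) : ℤ)) = -1 by push_cast; ring] at this
          simp at this
    exact eq_empty_of_forall_notMem fun p hp => hd _ (this p p.2) hp
  · left
    have : ∀ p : ℕ, p < n + 1 → j + p ∈ B := by
      intro p
      induction p with
      | zero => exact fun _ => h0
      | succ p ih =>
        intro hp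
        rcases hall (p + 1) hp with h1 | h1
        · have := h _ h1 _ (ih (by omega))
          rw [show j + ((p + 1 : ℕ) : ℤ) - (j + (p : ℤ)) = 1 by push_cast; ring] at this
          simp at this
        · exact h1
    exact eq_empty_of_forall_notMem fun p hp => hd _ hp (this p p.2)

theorem nu_indep (A B : Set ℤ) (h : ∀ i ∈ A, ∀ j ∈ B, 1 < |i - j|) :
    IndepFun (fun (x : ℤ → St) (i : A) => x i) (fun (x : ℤ → St) (i : B) => x i) nu := by
  have hd : ∀ (j : ℤ) (n : ℕ), Disjoint {p : Fin (n + 1) | j + (p : ℕ) ∈ A}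
      {p : Fin (n + 1) | j + (p : ℕ) ∈ B} := by
    intro j n
    refine Set.disjoint_left.2 fun p h1 h2 => ?_
    have := h _ h1 _ h2
    simp at this
  choose m hm h1 h2 using fun (j : ℤ) (n : ℕ) =>
    exists_mix _ _ (window_cases A B h j n) (hd j n)
  have hM := mix_pres (fun _ : ℤ => rho) (fun j z => fun n => m j n (z.1 n, z.2 n))
    (fun j => mix_pres unif (m j) (hm j))
  have hA : Measurable (fun (x : ℤ → St) (i : A) => x i) := by fun_prop
  have hB : Measurable (fun (x : ℤ → St) (i : B) => x i) := by fun_prop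
  have hI : IndepFun ((fun (x : ℤ → St) (i : A) => x i) ∘ proc)
      ((fun (x : ℤ → St) (i : B) => x i) ∘ proc) P0 := by
    refine indep_of_mix P0 _ hM (hA.comp measurable_proc) (hB.comp measurable_proc) ?_ ?_
    · intro z
      funext i n p
      simp only [Function.comp, proc]
      split_ifs with hp
      · exact h1 _ _ _ _ (by simp)
      · rfl
    · intro z
      funext i n p
      simp only [Function.comp, proc]
      split_ifs with hp
      · exact h2 _ _ _ _ (by simp)
      · rfl
  rw [indepFun_iff_measure_inter_preimage_eq_mul] at hI ⊢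
  intro s t hs ht
  unfold nu
  rw [Measure.map_apply measurable_proc ((hA hs).inter (hB ht)),
    Measure.map_apply measurable_proc (hA hs), Measure.map_apply measurable_proc (hB ht)]
  exact hI s t hs ht

/-- the relation of the window with sites `0..n` -/
def Rel (n : ℕ) : Set (ℤ → St) :=
  {x | ∑ p ∈ Finset.range (n + 1), (x p n p).1 = (x 0 n 0).2.1 * (x n n n).2.2}

theorem measurable_coord (i : ℤ) (n p : ℕ) : Measurable (fun x : ℤ → St => x i n p) := by
  fun_prop

theorem measurableSet_Rel (n : ℕ) : MeasurableSet (Rel n) := by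
  refine measurableSet_eq_fun ?_ ?_
  · exact Finset.measurable_sum _ fun p _ => (measurable_coord _ _ _).fst
  · exact ((measurable_coord _ _ _).snd.fst).mul (measurable_coord _ _ _).snd.snd

theorem proc_u (ω : ℤ → ∀ n, W n) (n : ℕ) : (proc ω 0 n 0).2.1 = (ω 0 n).1.2.1 := by
  simp [proc, obs]

theorem proc_v (ω : ℤ → ∀ n, W n) (n : ℕ) : (proc ω n n n).2.2 = (ω 0 n).1.2.2 := by
  simp [proc, obs, Fin.ext_iff]

theorem nu_Rel (n : ℕ) : nu (Rel n)ᶜ = 0 := by
  unfold nu
  rw [Measure.map_apply measurable_proc (measurableSet_Rel n).compl]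
  have : proc ⁻¹' (Rel n)ᶜ = ∅ := by
    refine eq_empty_of_forall_notMem fun ω hω => hω ?_
    show _ = _
    rw [proc_u, proc_v, ← (ω 0 n).2, Finset.sum_range]
    refine Finset.sum_congr rfl fun p _ => ?_
    simp [proc, obs, p.2]
  rw [this, measure_empty]

/-- prescribing the two end bits -/
def UV (n : ℕ) (c d : ZMod 2) : Set (ℤ → St) := {x | (x 0 n 0).2.1 = c ∧ (x n n n).2.2 = d}

theorem measurableSet_UV (n : ℕ) (c d : ZMod 2) : MeasurableSet (UV n c d) :=
  (measurableSet_eq_fun (measurable_coord _ _ _).snd.fst measurable_const).inter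
    (measurableSet_eq_fun (measurable_coord _ _ _).snd.snd measurable_const)

theorem nu_UV (n : ℕ) (c d : ZMod 2) : (4 : ℝ≥0∞)⁻¹ ≤ nu (UV n c d) := by
  unfold nu
  rw [Measure.map_apply measurable_proc (measurableSet_UV n c d)]
  have h := (measurePreserving_eval_infinitePi unif n).comp
    (measurePreserving_eval_infinitePi (fun _ : ℤ => rho) 0)
  refine (unif_uv n c d).trans (le_of_eq ?_)
  rw [← h.measure_preimage MeasurableSet.of_discrete.nullMeasurableSet]
  congr 1
  ext ω
  simp only [UV, mem_preimage, mem_ofPred_eq, proc_u, proc_v, Function.comp, Function.eval]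

end Pool.Agent.H978Z.FinDep
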