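import Pool.Agent.H978Z.FinDep.Mix

set_option autoImplicit false

namespace Pool.Agent.H978Z.FinDep

open MeasureTheory ProbabilityTheory Set
open scoped ENNReal

/-- data of one window with sites `0..n`: shares `s p`, a left bit `u`, a right bit `v`,
with the shares summing to `u * v` -/
def W (n : ℕ) : Type :=
  {x : (Fin (n + 1) → ZMod 2) × ZMod 2 × ZMod 2 // ∑ p, x.1 p = x.2.1 * x.2.2}

instance instFintypeW (n : ℕ) : Fintype (W n) := by
  unfold W
  infer_instance

instance instMeasW (n : ℕ) : MeasurableSpace (W n) := ⊤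

instance instDiscW (n : ℕ) : DiscreteMeasurableSpace (W n) := ⟨fun _ => trivial⟩

instance instNonemptyW (n : ℕ) : Nonempty (W n) := ⟨⟨(0, 0, 0), by simp⟩⟩

/-- uniform law on a window -/
noncomputable def unif (n : ℕ) : Measure (W n) := uniformOn univ

instance instProbUnif (n : ℕ) : IsProbabilityMeasure (unif n) :=
  isProbabilityMeasure_uniformOn finite_univ univ_nonempty

theorem unif_single (n : ℕ) (x y : W n) : unif n {x} = unif n {y} := by
  simp [unif, uniformOn_univ]

/-- what site `p` of the window shows -/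
def obs {n : ℕ} (x : W n) (p : Fin (n + 1)) : ZMod 2 × ZMod 2 × ZMod 2 :=
  (x.1.1 p, if p = 0 then x.1.2.1 else 0, if p = Fin.last n then x.1.2.2 else 0)

/-- complete a window by solving for the share at `q` -/
def fill {n : ℕ} (q : Fin (n + 1)) (s : Fin (n + 1) → ZMod 2) (u v : ZMod 2) : W n :=
  ⟨(Function.update s q (u * v - ∑ p ∈ Finset.univ.erase q, s p), u, v), by
    rw [← Finset.add_sum_erase _ _ (Finset.mem_univ q)]
    have : ∑ p ∈ Finset.univ.erase q,
        Function.update s q (u * v - ∑ p ∈ Finset.univ.erase q, s p) p =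
        ∑ p ∈ Finset.univ.erase q, s p :=
      Finset.sum_congr rfl fun p hp => Function.update_of_ne (Finset.ne_of_mem_erase hp) _ _
    simp only [this, Function.update_self]
    ring⟩

theorem W_ext {n : ℕ} (q : Fin (n + 1)) {x y : W n} (h1 : ∀ p, p ≠ q → x.1.1 p = y.1.1 p)
    (h2 : x.1.2.1 = y.1.2.1) (h3 : x.1.2.2 = y.1.2.2) : x = y := by
  have hx := x.2
  have hy := y.2
  rw [← Finset.add_sum_erase _ _ (Finset.mem_univ q)] at hx hy
  have : ∑ p ∈ Finset.univ.erase q, x.1.1 p = ∑ p ∈ Finset.univ.erase q, y.1.1 p :=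
    Finset.sum_congr rfl fun p hp => h1 p (Finset.ne_of_mem_erase hp)
  rw [this, h2, h3, ← hy] at hx
  have hq : x.1.1 q = y.1.1 q := add_right_cancel hx
  refine Subtype.ext (Prod.ext ?_ (Prod.ext h2 h3))
  funext p
  by_cases hp : p = q
  · rw [hp, hq]
  · exact h1 p hp

theorem fill_s {n : ℕ} (q : Fin (n + 1)) (s : Fin (n + 1) → ZMod 2) (u v : ZMod 2)
    {p : Fin (n + 1)} (hp : p ≠ q) : (fill q s u v).1.1 p = s p :=
  Function.update_of_ne hp _ _

open Classical in
/-- mix two windows -/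
noncomputable def mixW {n : ℕ} (q : Fin (n + 1)) (a : Set (Fin (n + 1))) (x y : W n) : W n :=
  fill q (fun p => if p ∈ a then x.1.1 p else y.1.1 p)
    (if (0 : Fin (n + 1)) ∈ a then x.1.2.1 else y.1.2.1)
    (if Fin.last n ∈ a then x.1.2.2 else y.1.2.2)

theorem mixW_invol {n : ℕ} (q : Fin (n + 1)) (a : Set (Fin (n + 1))) (x y : W n) :
    mixW q a (mixW q a x y) (mixW q a y x) = x := by
  classical
  refine W_ext q (fun p hp => ?_) ?_ ?_
  · unfold mixW
    rw [fill_s _ _ _ _ hp, fill_s _ _ _ _ hp, fill_s _ _ _ _ hp]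
    split_ifs <;> rfl
  · simp only [mixW, fill]
    split_ifs <;> rfl
  · simp only [mixW, fill]
    split_ifs <;> rfl

theorem mixW_pres {n : ℕ} (q : Fin (n + 1)) (a : Set (Fin (n + 1))) :
    MeasurePreserving (fun z : W n × W n => mixW q a z.1 z.2) ((unif n).prod (unif n))
      (unif n) := by
  have hinv : Function.Involutive
      (fun z : W n × W n => (mixW q a z.1 z.2, mixW q a z.2 z.1)) := by
    intro z
    simp only [mixW_invol]
  have h := unif_equiv ((unif n).prod (unif n)) (fun x y => by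
    rw [← Set.singleton_prod_singleton, ← Set.singleton_prod_singleton, Measure.prod_prod,
      Measure.prod_prod, unif_single n x.1 y.1, unif_single n x.2 y.2]) hinv.toPerm
  exact (measurePreserving_fst (μ := unif n) (ν := unif n)).comp h

theorem exists_mix {n : ℕ} (a b : Set (Fin (n + 1)))
    (h : (∃ q, q ∉ a ∧ q ∉ b) ∨ a = ∅ ∨ b = ∅) (hab : Disjoint a b) :
    ∃ m : W n × W n → W n, MeasurePreserving m ((unif n).prod (unif n)) (unif n) ∧
      (∀ z, ∀ p ∈ a, obs (m z) p = obs z.1 p) ∧ (∀ z, ∀ p ∈ b, obs (m z) p = obs z.2 p) := by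
  classical
  rcases h with ⟨q, hqa, hqb⟩ | h | h
  · refine ⟨fun z => mixW q a z.1 z.2, mixW_pres q a, fun z p hp => ?_, fun z p hp => ?_⟩
    · have hpq : p ≠ q := fun h => hqa (h ▸ hp)
      refine Prod.ext ?_ (Prod.ext ?_ ?_)
      · simp only [obs, mixW]
        rw [fill_s _ _ _ _ hpq, if_pos hp]
      · simp only [obs, mixW, fill]
        split_ifs with h1 h2
        · rfl
        · exact absurd (h1 ▸ hp) h2
        · rfl
      · simp only [obs, mixW, fill]
        split_ifs with h1 h2
        · rfl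
        · exact absurd (h1 ▸ hp) h2
        · rfl
    · have hpq : p ≠ q := fun h => hqb (h ▸ hp)
      have hpa : p ∉ a := fun h => Set.disjoint_left.1 hab h hp
      refine Prod.ext ?_ (Prod.ext ?_ ?_)
      · simp only [obs, mixW]
        rw [fill_s _ _ _ _ hpq, if_neg hpa]
      · simp only [obs, mixW, fill]
        split_ifs with h1 h2
        · exact absurd (h1 ▸ h2) hpa
        · rfl
        · rfl
      · simp only [obs, mixW, fill]
        split_ifs with h1 h2
        · exact absurd (h1 ▸ h2) hpa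
        · rfl
        · rfl
  · exact ⟨Prod.snd, measurePreserving_snd, fun z p hp => by simp [h] at hp, fun _ _ _ => rfl⟩
  · exact ⟨Prod.fst, measurePreserving_fst, fun _ _ _ => rfl, fun z p hp => by simp [h] at hp⟩

theorem unif_uv (n : ℕ) (c d : ZMod 2) :
    (4 : ℝ≥0∞)⁻¹ ≤ unif n {x | x.1.2.1 = c ∧ x.1.2.2 = d} := by
  have key : ∀ c' d' : ZMod 2, unif n {x | x.1.2.1 = c' ∧ x.1.2.2 = d'} =
      unif n {x | x.1.2.1 = c ∧ x.1.2.2 = d} := by
    intro c' d'
    have hz : ∀ t : ZMod 2, t + t = 0 := by decide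
    have hinv : Function.Involutive
        (fun x : W n => fill 0 x.1.1 (x.1.2.1 + (c + c')) (x.1.2.2 + (d + d'))) := by
      intro x
      refine W_ext 0 (fun p hp => ?_) ?_ ?_
      · rw [fill_s _ _ _ _ hp, fill_s _ _ _ _ hp]
      · simp only [fill]
        rw [add_assoc, hz, add_zero]
      · simp only [fill]
        rw [add_assoc, hz, add_zero]
    rw [← (unif_equiv (unif n) (unif_single n) hinv.toPerm).measure_preimage
      (MeasurableSet.of_discrete.nullMeasurableSet)]
    congr 1
    ext x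
    simp only [Function.Involutive.coe_toPerm, mem_preimage, mem_ofPred_eq, fill]
    have : ∀ t e e' : ZMod 2, t + (e + e') = e' ↔ t = e := by decide
    rw [this, this]
  have hcov : (univ : Set (W n)) ⊆
      ({x | x.1.2.1 = 0 ∧ x.1.2.2 = 0} ∪ {x | x.1.2.1 = 0 ∧ x.1.2.2 = 1}) ∪
      ({x | x.1.2.1 = 1 ∧ x.1.2.2 = 0} ∪ {x | x.1.2.1 = 1 ∧ x.1.2.2 = 1}) := by
    intro x _
    have : ∀ s t : ZMod 2, (s = 0 ∧ t = 0 ∨ s = 0 ∧ t = 1) ∨ (s = 1 ∧ t = 0 ∨ s = 1 ∧ t = 1) := by
      decide
    exact this _ _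
  have h1 := (measure_mono (μ := unif n) hcov).trans ((measure_union_le _ _).trans
    (add_le_add (measure_union_le _ _) (measure_union_le _ _)))
  rw [measure_univ, key 0 0, key 0 1, key 1 0, key 1 1] at h1
  rw [ENNReal.inv_le_iff_le_mul (by simp) (by simp)]
  refine h1.trans (le_of_eq ?_)
  ring

end Pool.Agent.H978Z.FinDep
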